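import Pool.Agent.H99.LexTorus

open MeasureTheory Filter Topology
open scoped ENNReal NNReal

noncomputable section

namespace Pool.Agent.Results.MP_ca8afd_an.Counter

open Pool.Agent.H99.UAlg

abbrev J (f : C(Lx, ℂ)) : Lp ℂ ∞ (sg : Measure Lx) := ContinuousMap.toLp ∞ (sg : Measure Lx) ℂ f

theorem J_ae (f : C(Lx, ℂ)) : ∀ᵐ x ∂(sg : Measure Lx), J f x = f x :=
  ContinuousMap.coeFn_toLp (p := ∞) (μ := (sg : Measure Lx)) (𝕜 := ℂ) f

def AJ : Submodule ℂ (Lp ℂ ∞ (sg : Measure Lx)) :=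
  (Subalgebra.toSubmodule LA).map (ContinuousMap.toLp ∞ (sg : Measure Lx) ℂ).toLinearMap

theorem Aw_eq : Aw LA sg = wclos sg AJ := by
  have : {F : Lp ℂ ∞ (sg : Measure Lx) | ∃ f ∈ LA, ∀ᵐ s ∂(sg : Measure Lx), F s = f s} = AJ := by
    ext F
    constructor
    · rintro ⟨f, hf, h⟩
      refine ⟨f, hf, ?_⟩
      ext1
      filter_upwards [h, J_ae f] with s h1 h2
      rw [h1]; exact h2
    · rintro ⟨f, hf, rfl⟩
      exact ⟨f, hf, J_ae f⟩
  rw [Aw, this]; rfl

theorem J_mem {f : C(Lx, ℂ)} (hf : f ∈ LA) : J f ∈ Aw LA sg := by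
  rw [Aw_eq]
  exact (mem_wclos_iff _ _ _).2 fun h hh => hh _ ⟨f, hf, rfl⟩

theorem H2 : WDense LA sg := by
  rw [WDense, ← AAp_coe, Set.eq_univ_iff_forall]
  intro F
  refine (mem_wclos_iff sg (AAp LA ∞ sg) F).2 fun h hh => ?_
  have h0 : ∀ g ∈ AA LA, ∫ x, g x * h x ∂(sg : Measure Lx) = 0 := fun g hg =>
    (pair_toLp sg g h).symm.trans (hh _ ⟨g, hg, rfl⟩)
  have hz : (h : Lx → ℂ) =ᵐ[(sg : Measure Lx)] 0 :=
    ae_zero_of_ch (L1.integrable_coeFn h) fun m n f hf => by
      by_cases hp : Pos m n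
      · obtain ⟨g, hg, hg'⟩ := exists_ch hp
        rw [← h0 g (mem_AA hg)]
        exact integral_congr_ae ((hf.ae hg').mono fun x hx => by simp only [hx])
      · obtain ⟨g, hg, hg'⟩ := exists_ch (m := -m) (n := -n) (by unfold Pos at *; omega)
        rw [← h0 _ (star_mem_AA hg)]
        exact integral_congr_ae ((hf.ae (by simpa using hg'.star)).mono fun x hx => by
          simp only [hx])
  rw [pair_apply, integral_congr_ae (g := fun _ => 0) (hz.mono fun x hx => by simp [hx])]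
  simp

theorem H1 : ∀ F ∈ Aw LA sg, (∀ᵐ s ∂(sg : Measure Lx), (F s).im = 0) →
    ∃ c : ℂ, ∀ᵐ s ∂(sg : Measure Lx), F s = c := by
  intro F hF hre
  rw [Aw_eq] at hF
  have hFi : Integrable F (sg : Measure Lx) := (Lp.memLp F).integrable le_top
  have hpos : ∀ m n f, Pos m n → (m ≠ 0 ∨ n ≠ 0) → IsCh m n f →
      ∫ x, f x * F x ∂(sg : Measure Lx) = 0 := by
    intro m n f hp hne hf
    have e : ∀ G : Lp ℂ ∞ (sg : Measure Lx),
        pair sg G (ContinuousMap.toLp 1 (sg : Measure Lx) ℂ f) =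
          ∫ x, f x * G x ∂(sg : Measure Lx) := fun G => by
      rw [pair_apply]
      refine integral_congr_ae ?_
      filter_upwards [ContinuousMap.coeFn_toLp (p := 1) (μ := (sg : Measure Lx)) (𝕜 := ℂ) f]
        with x hx
      rw [hx, mul_comm]
    rw [← e]
    refine (mem_wclos_iff _ _ _).1 hF _ ?_
    rintro _ ⟨g, hg, rfl⟩
    refine gen_le_sub (pairL (ContinuousMap.toLp 1 (sg : Measure Lx) ℂ f)).isClosed_ker
      (fun u hu => ?_) g hg
    obtain ⟨m', n', hp', hu'⟩ := mon_A hu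
    refine (e (J u)).trans ?_
    rw [← (hf.mul hu').int (by unfold Pos at *; omega)]
    exact integral_congr_ae ((J_ae u).mono fun x hx => by simp only [hx]; rfl)
  refine ⟨∫ x, F x ∂(sg : Measure Lx), ?_⟩
  have := ae_zero_of_ch (hFi.sub (integrable_const (∫ x, F x ∂(sg : Measure Lx))))
    fun m n f hf => by
      have hfF : Integrable (fun x => f x * F x) (sg : Measure Lx) :=
        hFi.bdd_mul f.continuous.aestronglyMeasurable
          (Eventually.of_forall fun x => f.norm_coe_le_norm x)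
      simp only [Pi.sub_apply, mul_sub]
      rw [integral_sub hfF ((integrable_cm f _).mul_const _), integral_mul_const]
      by_cases hne : m ≠ 0 ∨ n ≠ 0
      · rw [hf.int hne, zero_mul, sub_zero]
        by_cases hp : Pos m n
        · exact hpos m n f hp hne hf
        · have h1 := hpos _ _ _ (by unfold Pos at *; omega) (by omega) hf.star
          have h2 := congrArg (starRingEnd ℂ) h1
          rw [← integral_conj, map_zero] at h2
          rw [← h2]
          refine integral_congr_ae (hre.mono fun x hx => ?_)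
          simp [Complex.conj_eq_iff_im.2 hx]
      · push Not at hne
        obtain ⟨rfl, rfl⟩ := hne
        have h1 := hf.ae isCh_one
        rw [integral_congr_ae (g := fun x => F x) (h1.mono fun x hx => by simp [hx]),
          integral_congr_ae (f := fun x => f x) (g := fun _ => 1) (h1.mono fun x hx => by simp [hx])]
        simp
  exact this.mono fun x hx => sub_eq_zero.1 hx

theorem ae_unit {m n : ℤ} {f : C(Lx, ℂ)} (hf : IsCh m n f) :
    ¬ ∀ᵐ x ∂(sg : Measure Lx), f x = 0 := by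
  intro h
  have h1 := (hf.mul hf.star).ae (by simpa using isCh_one)
  obtain ⟨x, hx1, hx2⟩ := (h.and h1).exists
  simp [hx1] at hx2

theorem no_iso : ¬ ∃ Φ, IsoToHinf sg (Aw LA sg) Φ := by
  rintro ⟨Φ, hΦ⟩
  have hadd : ∀ f ∈ LA, ∀ g ∈ LA, Φ (J (f + g)) = Φ (J f) + Φ (J g) := fun f hf g hg =>
    hΦ.add _ (J_mem hf) _ (J_mem hg) _ (J_mem (LA.add_mem hf hg)) (by
      filter_upwards [J_ae f, J_ae g, J_ae (f + g)] with x h1 h2 h3
      rw [h1, h2, h3]; rfl)
  have hmul : ∀ f ∈ LA, ∀ g ∈ LA, Φ (J (f * g)) = Φ (J f) * Φ (J g) := fun f hf g hg =>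
    hΦ.mul _ (J_mem hf) _ (J_mem hg) _ (J_mem (LA.mul_mem hf hg)) (by
      filter_upwards [J_ae f, J_ae g, J_ae (f * g)] with x h1 h2 h3
      rw [h1, h2, h3]; rfl)
  have hsmul : ∀ c : ℂ, ∀ f ∈ LA, Φ (J (c • f)) = c • Φ (J f) := fun c f hf =>
    hΦ.smul c _ (J_mem hf) _ (J_mem (LA.smul_mem hf c)) (by
      filter_upwards [J_ae f, J_ae (c • f)] with x h1 h3
      rw [h1, h3]; rfl)
  have hone : Φ (J 1) = 1 := by
    obtain ⟨F, hF, hF1⟩ := hΦ.bij.surjOn (show (1 : Metric.ball (0 : ℂ) 1 → ℂ) ∈ Hinf from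
      ⟨fun _ => 1, differentiableOn_const 1, ⟨1, fun _ _ => by simp⟩, fun _ => rfl⟩)
    have := hΦ.mul F hF _ (J_mem LA.one_mem) F hF ((J_ae 1).mono fun x hx => by rw [hx]; simp)
    rw [hF1, one_mul] at this
    exact this.symm
  have hinj : ∀ f ∈ LA, ∀ g ∈ LA, Φ (J f) = Φ (J g) → ∀ᵐ x ∂(sg : Measure Lx), f x = g x := by
    intro f hf g hg h
    have := hΦ.bij.injOn (J_mem hf) (J_mem hg) h
    filter_upwards [J_ae f, J_ae g] with x h1 h2
    rw [← h1, ← h2, this]
  let φ : Metric.ball (0 : ℂ) 1 → LA →ₐ[ℂ] ℂ := fun z => AlgHom.ofLinearMap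
    { toFun := fun f => Φ (J f) z
      map_add' := fun f g => congrFun (hadd f f.2 g g.2) z
      map_smul' := fun c f => congrFun (hsmul c f f.2) z }
    (congrFun hone z) fun f g => congrFun (hmul f f.2 g g.2) z
  have hb : ∀ z, ∀ f (hf : f ∈ LA), ‖Φ (J f) z‖ ≤ ‖f‖ := fun z f hf =>
    alg_norm_le adm_LA.closed (φ z) ⟨f, hf⟩
  obtain ⟨z0, hz0⟩ : ∃ z, Φ (J (Lc 0)) z ≠ 0 := by
    by_contra hn
    push Not at hn
    refine ae_unit (isCh_Lc 0) (hinj _ (Lc_mem 0) 0 LA.zero_mem (funext fun z => ?_))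
    exact (hn z).trans (map_zero (φ z)).symm
  have h1 : 1 ≤ ‖Φ (J La) z0‖ := by
    by_contra hlt
    exact hz0 (seq_zero (not_le.1 hlt) (fun k => (hb z0 _ (Lc_mem k)).trans (norm_Lc k))
      (alg_rel (φ z0)) 0)
  obtain ⟨G, hG, -, hGe⟩ := hΦ.bij.mapsTo (J_mem La_mem)
  have hconst := Complex.eqOn_of_isPreconnected_of_isMaxOn_norm
    (convex_ball (0 : ℂ) 1).isPreconnected Metric.isOpen_ball hG z0.2 (fun z hz => by
      show ‖G z‖ ≤ ‖G z0‖
      rw [← hGe z0, ← hGe ⟨z, hz⟩]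
      exact ((hb _ _ La_mem).trans norm_La).trans h1)
  have h2 := hinj _ La_mem (G z0 • 1) (LA.smul_mem LA.one_mem _) (by
    rw [hsmul _ _ LA.one_mem, hone]
    funext z
    rw [hGe z, hconst z.2]
    simp)
  have h3 := isCh_La.int (Or.inl one_ne_zero)
  rw [integral_congr_ae h2] at h3
  simp only [ContinuousMap.smul_apply, ContinuousMap.one_apply, smul_eq_mul, mul_one,
    integral_const, probReal_univ, one_smul] at h3
  exact ae_unit isCh_La (h2.mono fun x hx => by simp [hx, h3])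

theorem result : ∃ (S : Type) (_ : TopologicalSpace S) (_ : CompactSpace S) (_ : T2Space S)
    (_ : TopologicalSpace.MetrizableSpace S) (_ : MeasurableSpace S) (_ : BorelSpace S)
    (A : Subalgebra ℂ C(S, ℂ)) (σ : FiniteMeasure S),
    Adm A ∧ (σ : Measure S).support.Nontrivial ∧ RealConst σ (Aw A σ) ∧ WDense A σ ∧
      NotIsoHinf σ (Aw A σ) :=
  ⟨Lx, inferInstance, inferInstance, inferInstance, inferInstance, inferInstance,
    inferInstance, LA, sg, adm_LA, supp_sg, H1, H2, no_iso⟩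

end Pool.Agent.Results.MP_ca8afd_an.Counter
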